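import Mathlib
import Pool.Agent.MP_689404_al.X.Top

set_option autoImplicit false

namespace Pool.Agent.Results.MP_689404_al.Extremal

open Pool.Agent.MP_689404_al.X

/-- A free subset `A` of the sphere of radius `n` has the largest possible size if and only if
the subgroup it generates has finite index and no nontrivial element of length less than `n`. -/
theorem result (r n : ℕ) (hr : 1 ≤ r) (hn : 1 ≤ n) (A : Finset (FreeGroup (Fin r)))
    (hA : ∀ g ∈ A, FreeGroup.norm g = n)
    (hfree : Function.Injective (FreeGroup.lift fun a : A => (a : FreeGroup (Fin r)))) :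
    (∀ B : Finset (FreeGroup (Fin r)), (∀ g ∈ B, FreeGroup.norm g = n) →
        Function.Injective (FreeGroup.lift fun b : B => (b : FreeGroup (Fin r))) →
        B.card ≤ A.card) ↔
      ((Subgroup.closure (A : Set (FreeGroup (Fin r)))).FiniteIndex ∧
        ∀ g ∈ Subgroup.closure (A : Set (FreeGroup (Fin r))), g ≠ 1 → n ≤ FreeGroup.norm g) := by
  obtain ⟨s, rfl⟩ : ∃ s, r = s + 1 := ⟨r - 1, by omega⟩
  have hs : Fintype.card (Fin (s + 1)) = s + 1 := Fintype.card_fin _
  rcases Nat.even_or_odd' n with ⟨k, rfl | rfl⟩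
  · obtain ⟨j, rfl⟩ : ∃ j, k = j + 1 := ⟨k - 1, by omega⟩
    rw [max_iff_even s j hs A hA hfree]
    exact (extremal s (j + 1) _ hs hn A hA hfree).2 rfl
  · rw [max_iff_odd s k hs A hA hfree]
    exact (extremal s k _ hs hn A hA hfree).1 rfl

end Pool.Agent.Results.MP_689404_al.Extremal
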