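import Mathlib
import Pool.Agent.MP_689404_al.X.Top

set_option autoImplicit false

namespace Pool.Agent.Results.MP_689404_al.ExtremalCount

open Pool.Agent.MP_689404_al.X

/-- The number of free subsets of the sphere of radius `n` that have the largest possible size. -/
theorem result (r n : ℕ) (hr : 1 ≤ r) (hn : 1 ≤ n) :
    {A : Finset (FreeGroup (Fin r)) | (∀ g ∈ A, FreeGroup.norm g = n) ∧
      Function.Injective (FreeGroup.lift fun a : A => (a : FreeGroup (Fin r))) ∧
      ∀ B : Finset (FreeGroup (Fin r)), (∀ g ∈ B, FreeGroup.norm g = n) →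
        Function.Injective (FreeGroup.lift fun b : B => (b : FreeGroup (Fin r))) →
        B.card ≤ A.card}.ncard =
    if Even n then
      ((2 * r - 1) ^ (n / 2 - 1)).factorial ^ (2 * r - 1) *
        ((2 * r) ^ (2 * r - 2) * 2 ^ (2 * r - 1)) ^ ((2 * r - 1) ^ (n / 2 - 1))
    else
      ((2 * r - 1) ^ ((n - 1) / 2)).factorial ^ r * 2 ^ (r * (2 * r - 1) ^ ((n - 1) / 2)) := by
  obtain ⟨s, rfl⟩ : ∃ s, r = s + 1 := ⟨r - 1, by omega⟩
  have hs : Fintype.card (Fin (s + 1)) = s + 1 := Fintype.card_fin _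
  rcases Nat.even_or_odd' n with ⟨k, rfl | rfl⟩
  · obtain ⟨j, rfl⟩ : ∃ j, k = j + 1 := ⟨k - 1, by omega⟩
    have h2 : 2 * (j + 1) / 2 - 1 = j := by omega
    rw [if_pos (even_two_mul _), h2, ← count_even s j hs]
    congr 1
    ext A
    exact and_congr_right fun h1 => and_congr_right fun h3 => max_iff_even s j hs A h1 h3
  · have h2 : (2 * k + 1 - 1) / 2 = k := by omega
    rw [if_neg (by simp), h2, ← count_odd s k hs]
    congr 1
    ext A
    exact and_congr_right fun h1 => and_congr_right fun h3 => max_iff_odd s k hs A h1 h3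

end Pool.Agent.Results.MP_689404_al.ExtremalCount
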