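import Mathlib
import Pool.Agent.MP_689404_al.Upper

set_option autoImplicit false

namespace Pool.Agent.Results.MP_689404_al.SphereBasis

open Pool.Agent.MP_689404_al

/-- The largest size of a subset `A` of the sphere of radius `n` of the free group of rank `r`
that freely generates a subgroup is `(2r-1)^(n/2)` for even `n` and `r (2r-1)^((n-1)/2)` for
odd `n`. -/
theorem result (r n : ℕ) (hr : 1 ≤ r) (hn : 1 ≤ n) :
    IsGreatest
      {m : ℕ | ∃ A : Finset (FreeGroup (Fin r)),
        (∀ g ∈ A, FreeGroup.norm g = n) ∧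
        Function.Injective (FreeGroup.lift fun a : A => (a : FreeGroup (Fin r))) ∧
        A.card = m}
      (if Even n then (2 * r - 1) ^ (n / 2) else r * (2 * r - 1) ^ ((n - 1) / 2)) := by
  obtain ⟨s, rfl⟩ : ∃ s, r = s + 1 := ⟨r - 1, by omega⟩
  have hs : Fintype.card (Fin (s + 1)) = s + 1 := Fintype.card_fin _
  rcases Nat.even_or_odd' n with ⟨k, rfl | rfl⟩
  · have h1 : Even (2 * k) := even_two_mul k
    have h2 : 2 * k / 2 = k := by omega
    rw [if_pos h1, h2]
    constructor
    · obtain ⟨j, rfl⟩ : ∃ j, k = j + 1 := ⟨k - 1, by omega⟩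
      have := lower_even (0 : Fin (s + 1)) j
      rwa [hs] at this
    · rintro m ⟨A, hA1, hA2, rfl⟩
      exact (upper s k _ hs A hA1 hA2).2 rfl
  · have h1 : ¬ Even (2 * k + 1) := by simp
    have h2 : (2 * k + 1 - 1) / 2 = k := by omega
    rw [if_neg h1, h2]
    constructor
    · have := lower_odd (α := Fin (s + 1)) k
      rwa [hs] at this
    · rintro m ⟨A, hA1, hA2, rfl⟩
      exact (upper s k _ hs A hA1 hA2).1 rfl

end Pool.Agent.Results.MP_689404_al.SphereBasis
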